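import Mathlib

open Filter Topology

namespace Pool.Agent.H.MP_b17c32_an

theorem lim_proj {𝕜 Z : Type*} [RCLike 𝕜] [NormedAddCommGroup Z] [NormedSpace 𝕜 Z]
    [CompleteSpace Z] (T : Z →L[𝕜] Z) (hT : ∀ z, ‖z‖ = ‖T z‖ + ‖z - T z‖) :
    ∃ E : Z →L[𝕜] Z, E.comp E = E ∧ (∀ z, T z = z ↔ E z = z) ∧ ∀ z, ‖z‖ = ‖E z‖ + ‖z - E z‖ := by
  have step : ∀ n z, (T ^ (n + 1)) z = T ((T ^ n) z) := fun n z => by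
    rw [pow_succ']
    rfl
  have h1 : ∀ z n, ‖z‖ = ‖(T ^ n) z‖
      + ∑ i ∈ Finset.range n, dist ((T ^ i) z) ((T ^ (i + 1)) z) := fun z n => by
    induction n with
    | zero => simp
    | succ n ih =>
      rw [Finset.sum_range_succ, step, dist_eq_norm, ih, hT ((T ^ n) z)]
      ring
  have h2 : ∀ z, Summable fun i => dist ((T ^ i) z) ((T ^ (i + 1)) z) := fun z =>
    summable_of_sum_range_le (c := ‖z‖) (fun _ => dist_nonneg) fun n => by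
      linarith [h1 z n, norm_nonneg ((T ^ n) z)]
  choose e he using fun z => cauchySeq_tendsto_of_complete (cauchySeq_of_summable_dist (h2 z))
  have h3 : ∀ z, ‖z‖ = ‖e z‖ + ‖z - e z‖ := fun z => by
    refine le_antisymm (by simpa using norm_add_le (e z) (z - e z)) ?_
    refine le_of_tendsto' ((he z).norm.add (tendsto_const_nhds.sub (he z)).norm) fun n => ?_
    have := dist_le_range_sum_dist (fun i => (T ^ i) z) n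
    rw [dist_eq_norm] at this
    simp only [pow_zero, ContinuousLinearMap.one_apply] at this
    linarith [h1 z n]
  have h4 : ∀ z, T (e z) = e z := fun z => by
    refine tendsto_nhds_unique ((T.continuous.tendsto _).comp (he z)) ?_
    have := (he z).comp (tendsto_add_atTop_nat 1)
    exact this.congr fun n => step n z
  have h5 : ∀ z, T z = z → e z = z := fun z hz => by
    refine tendsto_nhds_unique (he z) (tendsto_const_nhds.congr fun n => ?_)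
    induction n with
    | zero => simp
    | succ n ih => rw [step, ← ih, hz]
  let E0 : Z →ₗ[𝕜] Z :=
    { toFun := e
      map_add' := fun x y => tendsto_nhds_unique (he (x + y))
        (((he x).add (he y)).congr fun n => (map_add _ x y).symm)
      map_smul' := fun c x => tendsto_nhds_unique (he (c • x))
        (((he x).const_smul c).congr fun n => (map_smul _ c x).symm) }
  refine ⟨E0.mkContinuous 1 fun z => ?_, ?_, fun z => ⟨h5 z, fun hz => ?_⟩, h3⟩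
  · show ‖e z‖ ≤ 1 * ‖z‖
    linarith [h3 z, norm_nonneg (z - e z)]
  · ext z
    exact h5 _ (h4 z)
  · have hz' : e z = z := hz
    rw [← hz', h4]

theorem abst {𝕜 A B : Type*} [RCLike 𝕜] [NormedAddCommGroup A] [NormedSpace 𝕜 A]
    [CompleteSpace A] [NormedAddCommGroup B] [NormedSpace 𝕜 B] (i : A →L[𝕜] B) (j : B →L[𝕜] A)
    (Q : B →L[𝕜] B) (hji : ∀ x, j (i x) = x) (hin : ∀ x, ‖i x‖ ≤ ‖x‖) (hjn : ∀ x, ‖j x‖ ≤ ‖x‖)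
    (hL : ∀ x, ‖x‖ = ‖Q x‖ + ‖x - Q x‖) :
    ∃ E : A →L[𝕜] A, E.comp E = E ∧ (∀ z, Q (i z) = i z ↔ E z = z) ∧
      ∀ z, ‖z‖ = ‖E z‖ + ‖z - E z‖ := by
  have hT : ∀ Φ, ‖Φ‖ = ‖(j.comp (Q.comp i)) Φ‖ + ‖Φ - (j.comp (Q.comp i)) Φ‖ := fun Φ => by
    refine le_antisymm (by simpa using norm_add_le (j (Q (i Φ))) (Φ - j (Q (i Φ)))) ?_
    have h1 := hjn (Q (i Φ))
    have h2 := hjn (i Φ - Q (i Φ))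
    rw [map_sub, hji] at h2
    have := hL (i Φ)
    have := hin Φ
    simp only [ContinuousLinearMap.comp_apply]
    linarith
  obtain ⟨E, hE, hE1, hE2⟩ := lim_proj _ hT
  refine ⟨E, hE, fun Φ => Iff.trans ⟨fun h => ?_, fun h => ?_⟩ (hE1 Φ), hE2⟩
  · simp only [ContinuousLinearMap.comp_apply]
    rw [h, hji]
  · simp only [ContinuousLinearMap.comp_apply] at h
    have h1 := hjn (Q (i Φ))
    rw [h] at h1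
    have h2 : ‖i Φ - Q (i Φ)‖ ≤ 0 := by linarith [hL (i Φ), hin Φ]
    exact (sub_eq_zero.1 (norm_le_zero_iff.1 h2)).symm

theorem abst2 {𝕜 A B : Type*} [RCLike 𝕜] [NormedAddCommGroup A] [NormedSpace 𝕜 A]
    [NormedAddCommGroup B] [NormedSpace 𝕜 B] (i : (A →L[𝕜] 𝕜) →L[𝕜] (B →L[𝕜] 𝕜)) (j : (B →L[𝕜] 𝕜) →L[𝕜] (A →L[𝕜] 𝕜))
    (Q : (B →L[𝕜] 𝕜) →L[𝕜] (B →L[𝕜] 𝕜)) (hji : ∀ x, j (i x) = x) (hin : ∀ x, ‖i x‖ ≤ ‖x‖) (hjn : ∀ x, ‖j x‖ ≤ ‖x‖)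
    (hL : ∀ x, ‖x‖ = ‖Q x‖ + ‖x - Q x‖) :
    ∃ E : (A →L[𝕜] 𝕜) →L[𝕜] (A →L[𝕜] 𝕜), E.comp E = E ∧ (∀ z, Q (i z) = i z ↔ E z = z) ∧
      ∀ z, ‖z‖ = ‖E z‖ + ‖z - E z‖ := abst i j Q hji hin hjn hL

theorem abst3 {𝕜 A B : Type*} [RCLike 𝕜] [NormedAddCommGroup A] [NormedSpace 𝕜 A]
    [NormedAddCommGroup B] [NormedSpace 𝕜 B] (i : ((A →L[𝕜] 𝕜) →L[𝕜] 𝕜) →L[𝕜] ((B →L[𝕜] 𝕜) →L[𝕜] 𝕜)) (j : ((B →L[𝕜] 𝕜) →L[𝕜] 𝕜) →L[𝕜] ((A →L[𝕜] 𝕜) →L[𝕜] 𝕜))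
    (Q : ((B →L[𝕜] 𝕜) →L[𝕜] 𝕜) →L[𝕜] ((B →L[𝕜] 𝕜) →L[𝕜] 𝕜)) (hji : ∀ x, j (i x) = x) (hin : ∀ x, ‖i x‖ ≤ ‖x‖) (hjn : ∀ x, ‖j x‖ ≤ ‖x‖)
    (hL : ∀ x, ‖x‖ = ‖Q x‖ + ‖x - Q x‖) :
    ∃ E : ((A →L[𝕜] 𝕜) →L[𝕜] 𝕜) →L[𝕜] ((A →L[𝕜] 𝕜) →L[𝕜] 𝕜), E.comp E = E ∧ (∀ z, Q (i z) = i z ↔ E z = z) ∧
      ∀ z, ‖z‖ = ‖E z‖ + ‖z - E z‖ := abst2 (A := A →L[𝕜] 𝕜) (B := B →L[𝕜] 𝕜) i j Q hji hin hjn hL

theorem mid {𝕜 X Y : Type*} [RCLike 𝕜] [NormedAddCommGroup X] [NormedSpace 𝕜 X]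
    [NormedAddCommGroup Y] [NormedSpace 𝕜 Y] (ι : Y →L[𝕜] X) (hι : ∀ y, ‖ι y‖ ≤ ‖y‖)
    (e : (Y →L[𝕜] 𝕜) →L[𝕜] (X →L[𝕜] 𝕜)) (he : ∀ g y, e g (ι y) = g y) (hen : ∀ g, ‖e g‖ ≤ ‖g‖)
    (hsep : ∀ x, (∀ f : X →L[𝕜] 𝕜, (∀ y, f (ι y) = 0) → f x = 0) → ∃ y, ι y = x)
    (Q : ((X →L[𝕜] 𝕜) →L[𝕜] 𝕜) →L[𝕜] ((X →L[𝕜] 𝕜) →L[𝕜] 𝕜))
    (hQ : ∀ Φ : (X →L[𝕜] 𝕜) →L[𝕜] 𝕜, (∃ x : X, ∀ f : X →L[𝕜] 𝕜, Φ f = f x) ↔ Q Φ = Φ)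
    (hL : ∀ Φ : (X →L[𝕜] 𝕜) →L[𝕜] 𝕜, ‖Φ‖ = ‖Q Φ‖ + ‖Φ - Q Φ‖) :
    ∃ Q : ((Y →L[𝕜] 𝕜) →L[𝕜] 𝕜) →L[𝕜] ((Y →L[𝕜] 𝕜) →L[𝕜] 𝕜),
      Q.comp Q = Q ∧
      (∀ Φ : (Y →L[𝕜] 𝕜) →L[𝕜] 𝕜, (∃ y : Y, ∀ f : Y →L[𝕜] 𝕜, Φ f = f y) ↔ Q Φ = Φ) ∧
      (∀ Φ : (Y →L[𝕜] 𝕜) →L[𝕜] 𝕜, ‖Φ‖ = ‖Q Φ‖ + ‖Φ - Q Φ‖) := by
  obtain ⟨r, hr⟩ : ∃ r : (X →L[𝕜] 𝕜) →L[𝕜] (Y →L[𝕜] 𝕜), ∀ f w, r f w = f (ι w) :=
    ⟨(ContinuousLinearMap.compL 𝕜 Y X 𝕜).flip ι, fun _ _ => rfl⟩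
  have hre : ∀ g, r (e g) = g := fun g => by
    ext w
    rw [hr, he]
  obtain ⟨i, hi⟩ : ∃ i : ((Y →L[𝕜] 𝕜) →L[𝕜] 𝕜) →L[𝕜] ((X →L[𝕜] 𝕜) →L[𝕜] 𝕜),
      ∀ Φ f, i Φ f = Φ (r f) :=
    ⟨(ContinuousLinearMap.compL 𝕜 (X →L[𝕜] 𝕜) (Y →L[𝕜] 𝕜) 𝕜).flip r, fun _ _ => rfl⟩
  obtain ⟨j, hj⟩ : ∃ j : ((X →L[𝕜] 𝕜) →L[𝕜] 𝕜) →L[𝕜] ((Y →L[𝕜] 𝕜) →L[𝕜] 𝕜),
      ∀ Ψ g, j Ψ g = Ψ (e g) :=
    ⟨(ContinuousLinearMap.compL 𝕜 (Y →L[𝕜] 𝕜) (X →L[𝕜] 𝕜) 𝕜).flip e, fun _ _ => rfl⟩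
  have hji : ∀ Φ, j (i Φ) = Φ := fun Φ => by
    ext g
    rw [hj, hi, hre]
  have hrn : ∀ f, ‖r f‖ ≤ ‖f‖ := fun f =>
    ContinuousLinearMap.opNorm_le_bound _ (norm_nonneg _) fun w => by
      rw [hr]
      exact f.le_opNorm_of_le (hι w)
  have hin : ∀ Φ, ‖i Φ‖ ≤ ‖Φ‖ := fun Φ =>
    ContinuousLinearMap.opNorm_le_bound _ Φ.opNorm_nonneg fun f => by
      rw [hi]
      exact Φ.le_opNorm_of_le (hrn f)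
  have hjn : ∀ Ψ, ‖j Ψ‖ ≤ ‖Ψ‖ := fun Ψ =>
    ContinuousLinearMap.opNorm_le_bound _ Ψ.opNorm_nonneg fun g => by
      rw [hj]
      exact Ψ.le_opNorm_of_le (hen g)
  obtain ⟨E, hE, hE1, hE2⟩ := abst3 i j Q hji hin hjn hL
  refine ⟨E, hE, fun Φ => Iff.trans ⟨?_, fun h => ?_⟩ (hE1 Φ), hE2⟩
  · rintro ⟨y, hy⟩
    exact (hQ _).1 ⟨ι y, fun f => by rw [hi, hy, hr]⟩
  · obtain ⟨x, hx⟩ := (hQ (i Φ)).2 h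
    obtain ⟨y, rfl⟩ := hsep x fun f hf => by
      have h4 : r f = 0 := by
        ext w
        rw [hr, hf]
        rfl
      rw [← hx, hi, h4, map_zero]
    refine ⟨y, fun g => ?_⟩
    have h5 := hx (e g)
    rwa [hi, hre, he] at h5

theorem ext_op {𝕜 X : Type*} [RCLike 𝕜] [NormedAddCommGroup X] [NormedSpace 𝕜 X]
    (W : Submodule 𝕜 X) (P : (X →L[𝕜] 𝕜) →L[𝕜] (X →L[𝕜] 𝕜)) (hP : P.comp P = P) (hP1 : ‖P‖ ≤ 1)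
    (hker : ∀ f : X →L[𝕜] 𝕜, P f = 0 ↔ ∀ w ∈ W, f w = 0) :
    ∃ e : (W →L[𝕜] 𝕜) →L[𝕜] (X →L[𝕜] 𝕜), (∀ g (y : W), e g y = g y) ∧ ∀ g, ‖e g‖ ≤ ‖g‖ := by
  choose ex hex hexn using fun g : W →L[𝕜] 𝕜 => exists_extension_norm_eq W g
  have hPeq : ∀ f g : X →L[𝕜] 𝕜, (∀ w : W, f w = g w) → P f = P g := fun f g h => by
    rw [← sub_eq_zero, ← map_sub, hker]
    intro w hw
    simpa [sub_eq_zero] using h ⟨w, hw⟩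
  have hPw : ∀ (f : X →L[𝕜] 𝕜) (w : W), P f w = f w := fun f w => by
    have h0 : P (P f - f) = 0 := by
      rw [map_sub, sub_eq_zero]
      exact congrArg (fun A => A f) hP
    simpa [sub_eq_zero] using (hker _).1 h0 w w.2
  let e0 : (W →L[𝕜] 𝕜) →ₗ[𝕜] (X →L[𝕜] 𝕜) :=
    { toFun := fun g => P (ex g)
      map_add' := fun g h => by
        rw [← map_add]
        exact hPeq _ _ fun w => by simp [hex]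
      map_smul' := fun c g => by
        rw [← map_smul]
        exact hPeq _ _ fun w => by simp [hex] }
  have he0 : ∀ g, ‖e0 g‖ ≤ 1 * ‖g‖ := fun g => by
    rw [← hexn g]
    exact P.le_of_opNorm_le hP1 _
  exact ⟨e0.mkContinuous 1 he0, fun g w => (hPw (ex g) w).trans (hex g w),
    fun g => (he0 g).trans (one_mul _).le⟩

theorem sep {𝕜 X : Type*} [RCLike 𝕜] [NormedAddCommGroup X] [NormedSpace 𝕜 X]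
    (W : Submodule 𝕜 X) (hW : IsClosed (W : Set X)) (x : X)
    (h : ∀ f : X →L[𝕜] 𝕜, (∀ y : W, f y = 0) → f x = 0) : ∃ y : W, (y : X) = x := by
  refine ⟨⟨x, ?_⟩, rfl⟩
  by_contra hn
  have hne : (W.mkQ x : X ⧸ W) ≠ 0 := fun h0 => hn ((Submodule.Quotient.mk_eq_zero W).1 h0)
  obtain ⟨g, hg⟩ := SeparatingDual.exists_ne_zero (R := 𝕜) hne
  exact hg (h (g.comp W.mkQL) fun y => by simp [(Submodule.Quotient.mk_eq_zero W).2 y.2])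

end Pool.Agent.H.MP_b17c32_an
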